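import Pool.Agent.Y329.NS.Stm

/-!
# Project NS: the operator package (O)
-/

set_option autoImplicit false

namespace Pool.Agent.Y761.NS.O

open Pool.Agent.Y329.NS Polynomial
open Pool.Agent.TH91.RF Pool.Agent.TH91.NB Pool.Agent.TH91.LG

/-- the projection onto the strictly upper triangular matrices -/
noncomputable def top (N : ℕ) : Mat N →ₗ[ℝ] Mat N where
  toFun Z := fun i j => if (j : ℕ) < i + 1 then 0 else Z i j
  map_add' Z Z' := by
    ext i j
    change (if (j : ℕ) < i + 1 then (0 : ℝ) else Z i j + Z' i j) =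
      (if (j : ℕ) < i + 1 then 0 else Z i j) + (if (j : ℕ) < i + 1 then 0 else Z' i j)
    split_ifs
    · rw [add_zero]
    · rfl
  map_smul' c Z := by
    ext i j
    change (if (j : ℕ) < i + 1 then (0 : ℝ) else c * Z i j) =
      c * (if (j : ℕ) < i + 1 then 0 else Z i j)
    split_ifs
    · rw [mul_zero]
    · rfl

theorem top_mem {N : ℕ} (Z : Mat N) : top N Z ∈ Su N := by
  intro i j hij
  exact if_pos hij

theorem top_eq {N : ℕ} {Z : Mat N} (hZ : Z ∈ Su N) : top N Z = Z := by
  ext i j
  change (if (j : ℕ) < i + 1 then (0 : ℝ) else Z i j) = Z i j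
  split_ifs with h
  · exact (hZ i j h).symm
  · rfl

section data

variable {N d D : ℕ} (O : OpData N d D)

theorem uniq {T T' : Mat O.m} (h : ∀ v i x, O.ev (T.mulVec v) i x = O.ev (T'.mulVec v) i x) :
    T = T' := by
  rw [Matrix.ext_iff_mulVec]
  intro v
  apply O.inj
  funext i x
  exact h v i x

/-- sums of powers -/
theorem sym_sum {T : Mat O.m} {f : Fin d → ℝ → Mat N}
    (h : ∀ v i x, O.ev (T.mulVec v) i x = (f i x).mulVec (O.ev v i x)) (q : ℕ → ℚ)
    (I : Finset ℕ) : ∀ v i x, O.ev ((∑ k ∈ I, q k • T ^ k).mulVec v) i x =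
      (∑ k ∈ I, q k • f i x ^ k).mulVec (O.ev v i x) := by
  classical
  have hp : ∀ (k : ℕ) v i x, O.ev ((T ^ k).mulVec v) i x = (f i x ^ k).mulVec (O.ev v i x) := by
    intro k
    induction k with
    | zero =>
      intro v i x
      rw [pow_zero, pow_zero, Matrix.one_mulVec, Matrix.one_mulVec]
    | succ k ih =>
      intro v i x
      rw [pow_succ, pow_succ, ← Matrix.mulVec_mulVec, ih, h, Matrix.mulVec_mulVec]
  intro v i x
  induction I using Finset.induction_on with
  | empty => simp
  | insert k I hk ih =>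
    rw [Finset.sum_insert hk, Finset.sum_insert hk, Matrix.add_mulVec, Matrix.add_mulVec,
      map_add, Pi.add_apply, Pi.add_apply, ih]
    congr 1
    rw [← Rat.cast_smul_eq_qsmul ℝ, ← Rat.cast_smul_eq_qsmul ℝ, Matrix.smul_mulVec,
      Matrix.smul_mulVec, map_smul, Pi.smul_apply, Pi.smul_apply, hp]

theorem exp_sym {T : Mat O.m} (hT : T ∈ Su O.m) {f : Fin d → ℝ → Mat N}
    (hf : ∀ i x, f i x ∈ Su N)
    (h : ∀ v i x, O.ev (T.mulVec v) i x = (f i x).mulVec (O.ev v i x)) :
    ∀ v i x, O.ev ((IsNilpotent.exp T).mulVec v) i x =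
      (IsNilpotent.exp (f i x)).mulVec (O.ev v i x) := by
  intro v i x
  rw [IsNilpotent.exp_eq_sum (k := O.m + N + 1)
      ((J887.matFiltR O.m).pow_eq_zero (memF hT) _ (by omega) (by omega)),
    IsNilpotent.exp_eq_sum (a := f i x) (k := O.m + N + 1)
      ((J887.matFiltR N).pow_eq_zero (memF (hf i x)) _ (by omega) (by omega))]
  exact sym_sum O h _ _ v i x

/-- multiplication operators -/
theorem exists_mo (q : Fin d → ℝ[X]) (hq : ∀ i, (q i).natDegree ≤ D) :
    ∃ F : Mat N →ₗ[ℝ] Mat O.m, (∀ Z ∈ Su N, F Z ∈ Su O.m) ∧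
      ∀ Z ∈ Su N, ∀ v i x, O.ev ((F Z).mulVec v) i x =
        ((q i).eval x • Z).mulVec (O.ev v i x) := by
  have h1 : ∀ Z : Mat N, ∃ T ∈ Su O.m, ∀ v i x, O.ev (T.mulVec v) i x =
      ((q i).eval x • top N Z).mulVec (O.ev v i x) := fun Z => O.mulop q hq _ (top_mem Z)
  choose F hF hFe using h1
  refine ⟨{ toFun := F
            map_add' := fun Z Z' => uniq O fun v i x => ?_
            map_smul' := fun c Z => uniq O fun v i x => ?_ }, fun Z _ => hF Z, fun Z hZ v i x => ?_⟩
  · rw [hFe, map_add (top N), smul_add, Matrix.add_mulVec, Matrix.add_mulVec, map_add,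
      Pi.add_apply, Pi.add_apply, hFe, hFe]
  · rw [hFe, map_smul (top N), RingHom.id_apply, Matrix.smul_mulVec c (F Z), map_smul,
      Pi.smul_apply, Pi.smul_apply, hFe, smul_comm (eval x (q i)) c, Matrix.smul_mulVec c]
  · have h2 := hFe Z v i x
    rw [top_eq hZ] at h2
    exact h2

end data

theorem exp_aux {m : ℕ} {s z κ : Mat m} (hs : s ∈ Su m) (hz : z ∈ Su m)
    (h1 : s * z = z * s + κ) (h2 : κ * z = z * κ) :
    s * IsNilpotent.exp z = IsNilpotent.exp z * (s + κ) := by
  rcases Nat.eq_zero_or_pos m with hm | hm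
  · subst hm
    exact Subsingleton.elim _ _
  · obtain ⟨n, rfl⟩ : ∃ n, m = n + 1 := ⟨m - 1, by omega⟩
    rw [(J887.matFiltR (n + 1)).mul_exp (memF hz) (memF hs)]
    congr 1
    rw [Finset.sum_range_succ', Finset.sum_range_succ']
    have e1 : adr z s = κ := by
      unfold adr
      rw [h1]
      abel
    have e2 : adr z κ = 0 := by
      unfold adr
      rw [h2, sub_self]
    have e3 : adr z (0 : Mat (n + 1)) = 0 := by
      unfold adr
      simp
    have e4 : ∀ k, (adr z)^[k + 1 + 1] s = 0 := by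
      intro k
      rw [Function.iterate_succ_apply, Function.iterate_succ_apply, e1, e2]
      exact Function.iterate_fixed e3 k
    rw [Finset.sum_eq_zero fun k _ => by rw [e4, smul_zero]]
    simp only [zero_add, Function.iterate_one, Function.iterate_zero, id_eq, e1,
      Nat.factorial_zero, Nat.factorial_one, Nat.cast_one, inv_one, one_smul]
    exact add_comm κ s

theorem done : S_O := by
  intro N d D p hp O
  have hdp : ∀ i, (derivative (p i)).natDegree ≤ D := fun i =>
    (natDegree_derivative_le (p i)).trans ((Nat.sub_le _ _).trans (hp i))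
  obtain ⟨dl, hdl, hdle⟩ := exists_mo O (fun _ => 1) (fun i => by rw [natDegree_one]; omega)
  obtain ⟨kp, hkp, hkpe⟩ := exists_mo O (fun i => derivative (p i)) hdp
  obtain ⟨pp, hpp, hppe⟩ := exists_mo O p hp
  have hdle' : ∀ Z ∈ Su N, ∀ v i x, O.ev ((dl Z).mulVec v) i x = Z.mulVec (O.ev v i x) := by
    intro Z hZ v i x
    rw [hdle Z hZ, eval_one, one_smul]
  -- the bracket with the derivation
  have hsd : ∀ (q : Fin d → ℝ[X]) (F F' : Mat O.m) (Z : Mat N),
      (∀ v i x, O.ev (F.mulVec v) i x = ((q i).eval x • Z).mulVec (O.ev v i x)) →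
      (∀ v i x, O.ev (F'.mulVec v) i x =
        ((derivative (q i)).eval x • Z).mulVec (O.ev v i x)) →
      O.s * F = F * O.s + F' := by
    intro q F F' Z hF hF'
    refine uniq O fun v i x => ?_
    rw [← Matrix.mulVec_mulVec, Matrix.add_mulVec, ← Matrix.mulVec_mulVec, map_add,
      Pi.add_apply, Pi.add_apply, hF, hF']
    have h1 := O.s_deriv (F.mulVec v) i x
    have h2 : HasDerivAt (fun y => O.ev (F.mulVec v) i y)
        (((q i).eval x • Z).mulVec (O.ev (O.s.mulVec v) i x) +
          ((derivative (q i)).eval x • Z).mulVec (O.ev v i x)) x := by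
      have h3 : (fun y => O.ev (F.mulVec v) i y) =
          fun y => ((q i).eval y • Z).mulVec (O.ev v i y) := by
        funext y
        exact hF v i y
      rw [h3, hasDerivAt_pi]
      intro a
      have h4 := O.s_deriv v i x
      rw [hasDerivAt_pi] at h4
      have h5 : HasDerivAt (fun y => ∑ b, ((q i).eval y * Z a b) * O.ev v i y b)
          (∑ b, (((derivative (q i)).eval x * Z a b) * O.ev v i x b +
            ((q i).eval x * Z a b) * O.ev (O.s.mulVec v) i x b)) x := by
        apply HasDerivAt.fun_sum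
        intro b _
        exact (((q i).hasDerivAt x).mul_const (Z a b)).mul (h4 b)
      have h6 : (((q i).eval x • Z).mulVec (O.ev (O.s.mulVec v) i x) +
          ((derivative (q i)).eval x • Z).mulVec (O.ev v i x)) a =
          ∑ b, (((derivative (q i)).eval x * Z a b) * O.ev v i x b +
            ((q i).eval x * Z a b) * O.ev (O.s.mulVec v) i x b) := by
        rw [Finset.sum_add_distrib, add_comm]
        rfl
      rw [h6]
      exact h5
    exact h1.unique h2
  have hbr : ∀ (q : Fin d → ℝ[X]) (F : Mat N →ₗ[ℝ] Mat O.m),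
      (∀ Z ∈ Su N, ∀ v i x, O.ev ((F Z).mulVec v) i x =
        ((q i).eval x • Z).mulVec (O.ev v i x)) →
      ∀ Z ∈ Su N, ∀ Z' ∈ Su N, dl Z * F Z' - F Z' * dl Z = F (Z * Z' - Z' * Z) := by
    intro q F hF Z hZ Z' hZ'
    refine uniq O fun v i x => ?_
    rw [Matrix.sub_mulVec, map_sub, Pi.sub_apply, Pi.sub_apply, ← Matrix.mulVec_mulVec,
      ← Matrix.mulVec_mulVec, hdle' Z hZ, hF Z' hZ', hF Z' hZ', hdle' Z hZ,
      hF _ (br_mem_Su hZ hZ'), Matrix.mulVec_mulVec, Matrix.mulVec_mulVec, ← Matrix.sub_mulVec,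
      smul_sub, Matrix.mul_smul, Matrix.smul_mul]
  refine ⟨{ m := O.m
            ev := O.ev
            inj := O.inj
            const := O.const
            s := O.s
            dl := dl
            kp := kp
            s_mem := O.s_mem
            dl_mem := hdl
            kp_mem := hkp
            br_dd := hbr (fun _ => 1) dl hdle
            br_dk := hbr _ kp hkpe
            br_sd := ?_
            exp_dl := ?_
            exp_sk := ?_ }⟩
  · intro Z hZ
    have h1 := hsd (fun _ => 1) (dl Z) 0 Z (hdle Z hZ) (fun v i x => by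
      rw [derivative_one, eval_zero, zero_smul, Matrix.zero_mulVec, Matrix.zero_mulVec, map_zero]
      rfl)
    rw [h1, add_zero]
  · intro Z hZ
    exact exp_sym O (hdl Z hZ) (f := fun _ _ => Z) (fun _ _ => hZ) (hdle' Z hZ)
  · intro Z hZ n v i x
    have h1 := hsd p (pp Z) (kp Z) Z (hppe Z hZ) (hkpe Z hZ)
    have h2 : kp Z * pp Z = pp Z * kp Z := by
      refine uniq O fun v i x => ?_
      rw [← Matrix.mulVec_mulVec, ← Matrix.mulVec_mulVec, hkpe Z hZ, hppe Z hZ, hppe Z hZ,
        hkpe Z hZ, Matrix.mulVec_mulVec, Matrix.mulVec_mulVec, Matrix.smul_mul, Matrix.smul_mul,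
        Matrix.mul_smul, Matrix.mul_smul, smul_comm]
    have h3 := exp_aux O.s_mem (hpp Z hZ) h1 h2
    have hn : IsNilpotent (pp Z) := (J887.matFiltR O.m).nilp (memF (hpp Z hZ))
    have hab : IsNilpotent.exp (-(pp Z)) * IsNilpotent.exp (pp Z) = 1 :=
      IsNilpotent.exp_neg_mul_exp_self hn
    have hba : IsNilpotent.exp (pp Z) * IsNilpotent.exp (-(pp Z)) = 1 :=
      IsNilpotent.exp_mul_exp_neg_self hn
    have h4 : (n : ℝ) • (O.s + kp Z) =
        IsNilpotent.exp (-(pp Z)) * ((n : ℝ) • O.s) * IsNilpotent.exp (pp Z) := by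
      rw [Matrix.mul_smul, Matrix.smul_mul, mul_assoc, h3, ← mul_assoc, hab, one_mul]
    have hns : (n : ℝ) • O.s ∈ Su O.m := Submodule.smul_mem _ _ O.s_mem
    rw [h4, exp_conj hab hba ((J887.matFiltR O.m).nilp (memF hns))]
    -- the translation by `n`
    have h5 : ∀ (n : ℕ) v i x, O.ev ((IsNilpotent.exp ((n : ℝ) • O.s)).mulVec v) i x =
        O.ev v i (x + n) := by
      intro n
      have h6 : IsNilpotent.exp ((n : ℝ) • O.s) = IsNilpotent.exp O.s ^ n := by
        have h7 := uexp_pow O.s_mem n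
        have h8 := congrArg Units.val h7
        rw [Units.val_pow_eq_pow_val, uexp_val O.s_mem,
          uexp_val (Submodule.smul_mem _ _ O.s_mem)] at h8
        exact h8.symm
      rw [h6]
      clear h6
      induction n with
      | zero =>
        intro v i x
        rw [pow_zero, Matrix.one_mulVec, Nat.cast_zero, add_zero]
      | succ n ih =>
        intro v i x
        rw [pow_succ, ← Matrix.mulVec_mulVec, ih, O.s_exp, Nat.cast_succ, add_assoc]
    have hbs : ∀ v i x, O.ev ((IsNilpotent.exp (pp Z)).mulVec v) i x =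
        (IsNilpotent.exp ((p i).eval x • Z)).mulVec (O.ev v i x) :=
      exp_sym O (hpp Z hZ) (f := fun i x => (p i).eval x • Z)
        (fun i x => Submodule.smul_mem _ _ hZ) (hppe Z hZ)
    have has : ∀ v i x, O.ev ((IsNilpotent.exp (-(pp Z))).mulVec v) i x =
        (IsNilpotent.exp ((-((p i).eval x)) • Z)).mulVec (O.ev v i x) :=
      exp_sym O (Submodule.neg_mem _ (hpp Z hZ)) (f := fun i x => (-((p i).eval x)) • Z)
        (fun i x => Submodule.smul_mem _ _ hZ) (fun v i x => by
          rw [Matrix.neg_mulVec, map_neg, Pi.neg_apply, Pi.neg_apply, hppe Z hZ, neg_smul,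
            Matrix.neg_mulVec])
    rw [mul_assoc, ← Matrix.mulVec_mulVec, has, ← Matrix.mulVec_mulVec, h5, hbs,
      Matrix.mulVec_mulVec]
    congr 1
    have hN : ∀ c : ℝ, IsNilpotent (c • Z) := fun c =>
      (J887.matFiltR N).nilp (memF (Submodule.smul_mem _ c hZ))
    have h9 : Commute ((-((p i).eval x)) • Z) ((p i).eval (x + n) • Z) := by
      change _ * _ = _ * _
      rw [Matrix.smul_mul, Matrix.mul_smul, Matrix.smul_mul, Matrix.mul_smul, smul_comm]
    rw [← IsNilpotent.exp_add_of_commute h9 (hN _) (hN _), ← add_smul]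
    congr 2
    ring

end Pool.Agent.Y761.NS.O
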