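import Pool.Agent.Y329.NS.Stm

/-!
# Project NS: operators on polynomial vector functions in triangular coordinates (V)
-/

set_option autoImplicit false

namespace Pool.Agent.Y761.NS.V

open Pool.Agent.Y329.NS Polynomial
open Pool.Agent.TH91.RF Pool.Agent.TH91.NB Pool.Agent.TH91.LG

section ord

/-- an enumeration which is increasing in the weight -/
theorem exists_ord (ι : Type) [Fintype ι] (w : ι → ℕ) :
    ∃ f : ι ≃ Fin (Fintype.card ι), ∀ a b, w a < w b → f a < f b := by
  classical
  let e := Fintype.equivFin ι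
  let σ := Tuple.sort (w ∘ e.symm)
  refine ⟨e.trans σ.symm, fun a b h => ?_⟩
  by_contra h1
  have h2 := Tuple.monotone_sort (w ∘ e.symm) (not_lt.1 h1)
  have h3 : ∀ c, (w ∘ e.symm) (σ ((e.trans σ.symm) c)) = w c := by
    intro c
    simp
  have h4 : w b ≤ w a := by
    rw [← h3 a, ← h3 b]
    exact h2
  omega

end ord

section poly

variable (N d κ W : ℕ)

/-- the index set of the coefficients -/
abbrev Ix : Type := Fin d × ((j : Fin N) × Fin (W - κ * j))

variable {N d κ W}

/-- the weight -/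
def wt (a : Ix N d κ W) : ℕ := a.2.2 + κ * a.2.1

/-- the tuple of polynomials -/
noncomputable def Pl : (Ix N d κ W → ℝ) →ₗ[ℝ] (Fin d → Fin N → ℝ[X]) where
  toFun v := fun i j => ∑ e : Fin (W - κ * j), monomial (e : ℕ) (v (i, ⟨j, e⟩))
  map_add' v v' := by
    funext i j
    simp [Finset.sum_add_distrib]
  map_smul' c v := by
    funext i j
    simp [Finset.smul_sum, smul_monomial]

theorem coeff_Pl (v : Ix N d κ W → ℝ) (i : Fin d) (j : Fin N) (e : ℕ) :
    (Pl v i j).coeff e = if h : e < W - κ * j then v (i, ⟨j, ⟨e, h⟩⟩) else 0 := by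
  change (∑ e : Fin (W - κ * j), monomial (e : ℕ) (v (i, ⟨j, e⟩))).coeff e = _
  rw [finsetSum_coeff]
  simp only [coeff_monomial]
  split_ifs with h
  · rw [Finset.sum_eq_single ⟨e, h⟩]
    · simp
    · intro b _ hb
      rw [if_neg]
      intro h1
      exact hb (Fin.ext h1)
    · intro h1
      exact absurd (Finset.mem_univ _) h1
  · refine Finset.sum_eq_zero fun b _ => ?_
    rw [if_neg]
    intro h1
    exact h (h1 ▸ b.2)

theorem coeff_Pl_ix (v : Ix N d κ W → ℝ) (a : Ix N d κ W) :
    (Pl v a.1 a.2.1).coeff a.2.2 = v a := by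
  rw [coeff_Pl, dif_pos a.2.2.2]

/-- weight of a tuple of polynomials at most `t` -/
def Wle (κ : ℕ) (c : Fin d → Fin N → ℝ[X]) (t : ℕ) : Prop :=
  ∀ i j e, (c i j).coeff e ≠ 0 → e + κ * j ≤ t

theorem Pl_Wle (v : Ix N d κ W → ℝ) : Wle κ (Pl v) (W - 1) := by
  intro i j e h
  rw [coeff_Pl] at h
  split_ifs at h with h1
  · omega
  · exact absurd rfl h

theorem exists_Pl (c : Fin d → Fin N → ℝ[X]) (hc : ∀ i j e, (c i j).coeff e ≠ 0 →
    e + κ * j < W) : ∃ v : Ix N d κ W → ℝ, Pl v = c := by
  refine ⟨fun a => (c a.1 a.2.1).coeff a.2.2, ?_⟩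
  funext i j
  ext e
  rw [coeff_Pl]
  split_ifs with h
  · rfl
  · by_contra h1
    have := hc i j e (Ne.symm h1)
    omega

theorem Pl_inj : Function.Injective (Pl : (Ix N d κ W → ℝ) →ₗ[ℝ] _) := by
  intro v v' h
  funext a
  rw [← coeff_Pl_ix v, h, coeff_Pl_ix]

/-- operators which decrease the weight -/
def Dec (κ : ℕ) (Op : (Fin d → Fin N → ℝ[X]) →ₗ[ℝ] (Fin d → Fin N → ℝ[X])) : Prop :=
  ∀ t c, Wle κ c t → ∀ i j e, (Op c i j).coeff e ≠ 0 → e + κ * j < t

theorem exists_mat (f : Ix N d κ W ≃ Fin (Fintype.card (Ix N d κ W)))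
    (hf : ∀ a b, wt a < wt b → f a < f b)
    (Op : (Fin d → Fin N → ℝ[X]) →ₗ[ℝ] (Fin d → Fin N → ℝ[X])) (hOp : Dec κ Op) :
    ∃ T ∈ Su (Fintype.card (Ix N d κ W)), ∀ v : Fin (Fintype.card (Ix N d κ W)) → ℝ,
      Pl ((T.mulVec v) ∘ f) = Op (Pl (v ∘ f)) := by
  classical
  obtain ⟨A, hA⟩ : ∃ A : (Ix N d κ W → ℝ) →ₗ[ℝ] (Ix N d κ W → ℝ), ∀ v a,
      A v a = (Op (Pl v) a.1 a.2.1).coeff a.2.2 := by
    refine ⟨{ toFun := fun v a => (Op (Pl v) a.1 a.2.1).coeff a.2.2
              map_add' := fun v v' => by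
                funext a
                rw [map_add, map_add]
                rfl
              map_smul' := fun c v => by
                funext a
                rw [map_smul, map_smul]
                simp }, fun v a => rfl⟩
  have hPA : ∀ v, Pl (A v) = Op (Pl v) := by
    intro v
    funext i j
    ext e
    rw [coeff_Pl]
    split_ifs with h
    · rw [hA]
    · by_contra h1
      have := hOp _ _ (Pl_Wle v) i j e (Ne.symm h1)
      omega
  refine ⟨(LinearMap.toMatrix' A).submatrix f.symm f.symm, ?_, fun v => ?_⟩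
  · intro i j hij
    rw [Matrix.submatrix_apply, LinearMap.toMatrix'_apply, hA]
    by_contra h
    have h1 : Wle κ (Pl (Pi.single (f.symm j) (1 : ℝ) : Ix N d κ W → ℝ)) (wt (f.symm j)) := by
      intro i' j' e h2
      rw [coeff_Pl] at h2
      split_ifs at h2 with h3
      · by_cases h4 : ((i', ⟨j', ⟨e, h3⟩⟩) : Ix N d κ W) = f.symm j
        · rw [← h4]
          exact le_rfl
        · rw [Pi.single_apply, if_neg h4] at h2
          exact absurd rfl h2
      · exact absurd rfl h2
    have h2 := hOp _ _ h1 _ _ _ (by simpa [Pi.single_apply, Pi.single] using h)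
    have h3 := hf _ _ h2
    rw [Equiv.apply_symm_apply, Equiv.apply_symm_apply, Fin.lt_def] at h3
    omega
  · rw [Matrix.submatrix_mulVec_equiv, ← hPA, LinearMap.toMatrix'_mulVec]
    congr 1
    funext a
    simp [Function.comp_def]

/-- the derivation -/
noncomputable def opD (N d : ℕ) : (Fin d → Fin N → ℝ[X]) →ₗ[ℝ] (Fin d → Fin N → ℝ[X]) where
  toFun c := fun i j => derivative (c i j)
  map_add' c c' := by
    funext i j
    simp
  map_smul' r c := by
    funext i j
    simp

theorem opD_apply (c : Fin d → Fin N → ℝ[X]) (i : Fin d) (j : Fin N) :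
    opD N d c i j = derivative (c i j) := rfl

theorem opD_dec (κ : ℕ) : Dec κ (opD N d) := by
  intro t c hc i j e h
  rw [opD_apply, coeff_derivative] at h
  have h1 : (c i j).coeff (e + 1) ≠ 0 := fun h2 => h (by rw [h2, zero_mul])
  have := hc i j _ h1
  omega

/-- multiplication by `q i • Z` -/
noncomputable def opM (q : Fin d → ℝ[X]) (Z : Mat N) :
    (Fin d → Fin N → ℝ[X]) →ₗ[ℝ] (Fin d → Fin N → ℝ[X]) where
  toFun c := fun i a => ∑ b, q i * (C (Z a b) * c i b)
  map_add' c c' := by
    funext i j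
    simp only [Pi.add_apply, mul_add, Finset.sum_add_distrib]
  map_smul' r c := by
    funext i j
    simp only [Pi.smul_apply, RingHom.id_apply, mul_smul_comm, Finset.smul_sum]

theorem opM_apply (q : Fin d → ℝ[X]) (Z : Mat N) (c : Fin d → Fin N → ℝ[X]) (i : Fin d)
    (a : Fin N) : opM q Z c i a = ∑ b, q i * (C (Z a b) * c i b) := rfl

theorem opM_dec (D : ℕ) (q : Fin d → ℝ[X]) (hq : ∀ i, (q i).natDegree ≤ D) (Z : Mat N)
    (hZ : Z ∈ Su N) : Dec (D + 1) (opM q Z) := by
  intro t c hc i a e h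
  rw [opM_apply, finsetSum_coeff] at h
  obtain ⟨b, _, hb⟩ := Finset.exists_ne_zero_of_sum_ne_zero h
  rw [coeff_mul] at hb
  obtain ⟨⟨l, l'⟩, hl, hl2⟩ := Finset.exists_ne_zero_of_sum_ne_zero hb
  simp only [coeff_C_mul] at hl2
  have h1 : (q i).coeff l ≠ 0 := left_ne_zero_of_mul hl2
  have h2 : Z a b ≠ 0 := left_ne_zero_of_mul (right_ne_zero_of_mul hl2)
  have h3 : (c i b).coeff l' ≠ 0 := right_ne_zero_of_mul (right_ne_zero_of_mul hl2)
  have h4 : l + l' = e := Finset.HasAntidiagonal.mem_antidiagonal.1 hl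
  have h5 := hc i b l' h3
  have h6 : l ≤ D := (le_natDegree_of_ne_zero h1).trans (hq i)
  have h7 : (a : ℕ) + 1 ≤ b := by
    by_contra h8
    exact h2 (hZ a b (by omega))
  have h8 : (D + 1) * ((a : ℕ) + 1) ≤ (D + 1) * (b : ℕ) := Nat.mul_le_mul_left _ h7
  have h9 : (D + 1) * ((a : ℕ) + 1) = (D + 1) * (a : ℕ) + (D + 1) := by ring
  omega

end poly

section taylor

theorem eval_shift (p : ℝ[X]) (K : ℕ) (hK : p.natDegree < K) (x : ℝ) :
    p.eval (x + 1) = ∑ k ∈ Finset.range K, ((k.factorial : ℚ)⁻¹ : ℚ) •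
      ((derivative^[k] p).eval x) := by
  have h1 : p.eval (x + 1) = (taylor x p).eval 1 := by
    rw [taylor_eval, add_comm]
  rw [h1, eval_eq_sum_range' (n := K) (by rw [natDegree_taylor]; exact hK)]
  refine Finset.sum_congr rfl fun k _ => ?_
  rw [one_pow, mul_one, taylor_coeff, ← factorial_smul_hasseDeriv]
  change _ = _ • eval x (k.factorial • hasseDeriv k p)
  rw [eval_smul, nsmul_eq_mul, ← Rat.cast_smul_eq_qsmul ℝ, smul_eq_mul, Rat.cast_inv,
    Rat.cast_natCast, ← mul_assoc, inv_mul_cancel₀, one_mul]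
  exact_mod_cast Nat.factorial_ne_zero k

end taylor

theorem done : S_V := by
  intro N d D
  obtain ⟨W, hW⟩ : ∃ W, W = (D + 1) * N + 1 := ⟨_, rfl⟩
  have hjW : ∀ j : Fin N, (D + 1) * (j : ℕ) < W := by
    intro j
    have h1 : (D + 1) * (j : ℕ) ≤ (D + 1) * N := Nat.mul_le_mul_left _ j.2.le
    omega
  obtain ⟨f, hf⟩ := exists_ord (Ix N d (D + 1) W) wt
  obtain ⟨s, hs, hsP⟩ := exists_mat f hf (opD N d) (opD_dec (D + 1))
  let n := Fintype.card (Ix N d (D + 1) W)
  let R : (Fin n → ℝ) →ₗ[ℝ] (Fin d → Fin N → ℝ[X]) := Pl.comp (LinearMap.funLeft ℝ ℝ f)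
  have hR : ∀ v, R v = Pl (v ∘ f) := fun v => rfl
  let ev : (Fin n → ℝ) →ₗ[ℝ] (Fin d → ℝ → Fin N → ℝ) :=
    { toFun := fun v i x j => (R v i j).eval x
      map_add' := fun v v' => by
        funext i x j
        simp
      map_smul' := fun c v => by
        funext i x j
        simp }
  have hev : ∀ v i x j, ev v i x j = (R v i j).eval x := fun v i x j => rfl
  have hRs : ∀ v i j, R (s.mulVec v) i j = derivative (R v i j) := by
    intro v i j
    rw [hR, hsP]
    rfl
  have hRsk : ∀ (k : ℕ) v i j, R ((s ^ k).mulVec v) i j = derivative^[k] (R v i j) := by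
    intro k
    induction k with
    | zero =>
      intro v i j
      rw [pow_zero, Matrix.one_mulVec]
      rfl
    | succ k ih =>
      intro v i j
      rw [pow_succ, ← Matrix.mulVec_mulVec, ih, hRs]
      rfl
  refine ⟨{ m := n
            ev := ev
            inj := ?_
            const := ?_
            s := s
            s_mem := hs
            s_deriv := ?_
            s_exp := ?_
            mulop := ?_ }⟩
  · intro v v' h
    have h1 : R v = R v' := by
      funext i j
      apply Polynomial.funext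
      intro x
      rw [← hev, h, hev]
    rw [hR, hR] at h1
    have h2 := Pl_inj h1
    funext a
    have h3 := congrFun h2 (f.symm a)
    simpa using h3
  · intro y
    obtain ⟨v, hv⟩ := exists_Pl (N := N) (d := d) (κ := D + 1) (W := W)
      (fun _ j => C (y j)) (fun i j e h => by
        rw [coeff_C] at h
        split_ifs at h with h1
        · rw [h1, zero_add]
          exact hjW j
        · exact absurd rfl h)
    refine ⟨v ∘ f.symm, fun i x => ?_⟩
    funext j
    rw [hev, hR, Function.comp_assoc, Equiv.symm_comp_self, Function.comp_id, hv, eval_C]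
  · intro v i x
    rw [hasDerivAt_pi]
    intro j
    have h1 := (R v i j).hasDerivAt x
    rw [← hRs] at h1
    exact h1
  · intro v i x
    funext j
    have hs0 : s ^ (n + W + 1) = 0 :=
      (J887.matFiltR n).pow_eq_zero (memF hs) _ (by omega) (by omega)
    rw [IsNilpotent.exp_eq_sum hs0, hev, hev, eval_shift (R v i j) (n + W + 1) ?_ x]
    · have h1 : ∀ (I : Finset ℕ), R ((∑ k ∈ I, ((k.factorial : ℚ)⁻¹ : ℚ) • s ^ k).mulVec v) i j =
          ∑ k ∈ I, ((k.factorial : ℚ)⁻¹ : ℚ) • derivative^[k] (R v i j) := by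
        intro I
        classical
        induction I using Finset.induction_on with
        | empty => simp
        | insert k I hk ih =>
          rw [Finset.sum_insert hk, Finset.sum_insert hk, Matrix.add_mulVec, map_add,
            Pi.add_apply, Pi.add_apply, ih, ← hRsk]
          congr 1
          rw [← Rat.cast_smul_eq_qsmul ℝ, ← Rat.cast_smul_eq_qsmul ℝ, Matrix.smul_mulVec,
            map_smul]
          rfl
      rw [h1, eval_finsetSum]
      refine Finset.sum_congr rfl fun k _ => ?_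
      rw [← Rat.cast_smul_eq_qsmul ℝ, ← Rat.cast_smul_eq_qsmul ℝ, eval_smul]
    · by_contra h
      have h1 : (R v i j).coeff (R v i j).natDegree ≠ 0 := by
        intro h2
        rw [coeff_natDegree, leadingCoeff_eq_zero] at h2
        rw [h2, natDegree_zero] at h
        omega
      have h2 := Pl_Wle (v ∘ f) i j _ h1
      omega
  · intro q hq Z hZ
    obtain ⟨T, hT, hTP⟩ := exists_mat f hf (opM q Z) (opM_dec D q hq Z hZ)
    refine ⟨T, hT, fun v i x => ?_⟩
    funext a
    rw [hev, hR, hTP, opM_apply, eval_finsetSum]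
    simp only [Matrix.mulVec, dotProduct, Matrix.smul_apply, smul_eq_mul]
    refine Finset.sum_congr rfl fun b _ => ?_
    rw [eval_mul, eval_mul, eval_C, hev, hR]
    ring

end Pool.Agent.Y761.NS.V
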