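import Pool.Agent.Y329.NS.Stm

/-!
# Project NS: reduction of a nilsystem to the matrix model (RED)
-/

set_option autoImplicit false

namespace Pool.Agent.Y761.NS.Red

open Pool.Agent.Y329.NS Topology
open scoped Manifold ContDiff

section top

variable {G : Type} [Group G] [TopologicalSpace G] [IsTopologicalGroup G]

/-- an open connected subgroup is normal -/
theorem normal_of_open (U : Subgroup G) (hU : IsOpen (U : Set G))
    (hc : IsPreconnected (U : Set G)) : U.Normal := by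
  have h1 : (U : Set G) = connectedComponent (1 : G) := by
    apply Set.Subset.antisymm
    · exact hc.subset_connectedComponent U.one_mem
    · have h0 : IsClopen (U : Set G) := ⟨U.isClosed_of_isOpen hU, hU⟩
      exact IsClopen.connectedComponent_subset h0 U.one_mem
  refine ⟨fun n hn g => ?_⟩
  have h2 : IsPreconnected ((fun x => g * x * g⁻¹) '' (U : Set G)) :=
    hc.image _ (by fun_prop)
  have h3 : (1 : G) ∈ (fun x => g * x * g⁻¹) '' (U : Set G) := ⟨1, U.one_mem, by simp⟩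
  have h4 := h2.subset_connectedComponent h3
  rw [← h1] at h4
  exact h4 ⟨n, hn, rfl⟩

end top

theorem done (hM : S_M) (hX : S_X) (hOE : S_OE) : S_RED := by
  intro E _ _ _ G _ _ _ _ _ Γ hcomp g hdense
  have htop : IsTopologicalGroup G := topologicalGroup_of_lieGroup 𝓘(ℝ, E) ∞
  obtain ⟨N, e, M, H, φ, he, hMS, hbr, hbM, hMn, hmem, hφc, hφo, hφM⟩ := hM E G g
  obtain ⟨-, ⟨H₀, hH0n, hH0o, hH0c, hH0⟩, -⟩ := hOE N e M H he hMS hbr hbM hMn hmem
  obtain ⟨Gm, hGm'⟩ : ∃ Gm : Subgroup (Mat N)ˣ, Gm = (Γ.comap φ).map H.subtype := ⟨_, rfl⟩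
  have hGm : ∀ h : H, (h : (Mat N)ˣ) ∈ Gm ↔ φ h ∈ Γ := by
    intro h
    rw [hGm', Subgroup.mem_map]
    constructor
    · rintro ⟨x, hx, hxh⟩
      have h1 : x = h := Subtype.ext hxh
      rw [← h1]
      exact hx
    · intro h1
      exact ⟨h, h1, rfl⟩
  have hle : Gm ≤ H := by
    rw [hGm']
    rintro _ ⟨x, _, rfl⟩
    exact x.2
  -- the connected component of the group
  have hUo : IsOpen ((H₀.map φ : Subgroup G) : Set G) := by
    rw [Subgroup.coe_map]
    exact hφo _ hH0o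
  have hUc : IsPreconnected ((H₀.map φ : Subgroup G) : Set G) := by
    rw [Subgroup.coe_map]
    exact hH0c.image _ hφc.continuousOn
  have hUn : (H₀.map φ).Normal := normal_of_open _ hUo hUc
  have hprod := hX G Γ (H₀.map φ) hUo g hdense
  -- transitivity
  have htr : ∀ x : G, ∃ h ∈ H₀, ∃ γ ∈ Γ, x = φ h * γ := by
    intro x
    obtain ⟨_, ⟨h, hh, rfl⟩, γ, hγ, hx⟩ := hprod x
    exact ⟨h, hh, γ, hγ, hx⟩
  have htrans : ∀ h ∈ H, ∃ X ∈ e, ∃ γ ∈ Gm, h = uexp X * γ := by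
    intro h hh
    obtain ⟨h0, hh0, γ, hγ, hx⟩ := htr (φ ⟨h, hh⟩)
    obtain ⟨X, hX1, hX2⟩ := (hH0 h0).1 hh0
    refine ⟨X, hX1, ((h0⁻¹ * ⟨h, hh⟩ : H) : (Mat N)ˣ), ?_, ?_⟩
    · rw [hGm, map_mul, map_inv, hx, inv_mul_cancel_left]
      exact hγ
    · rw [← hX2, ← Subgroup.coe_mul, mul_inv_cancel_left]
  -- compactness
  have hcompH : CompactSpace (H ⧸ Gm.subgroupOf H) := by
    have hrel : ∀ a b : H, a⁻¹ * b ∈ Gm.subgroupOf H ↔ (φ a)⁻¹ * φ b ∈ Γ := by
      intro a b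
      rw [Subgroup.mem_subgroupOf, hGm, map_mul, map_inv]
    let F : H ⧸ Gm.subgroupOf H → G ⧸ Γ := Quotient.lift (fun h : H => (φ h : G ⧸ Γ)) (by
      intro a b hab
      have h1 := QuotientGroup.leftRel_apply.1 hab
      exact QuotientGroup.eq.2 ((hrel a b).1 h1))
    have hF : ∀ h : H, F (h : H ⧸ Gm.subgroupOf H) = (φ h : G ⧸ Γ) := fun h => rfl
    have hFc : Continuous F := by
      exact Continuous.quotient_lift (QuotientGroup.continuous_mk.comp hφc) _
    have hFi : Function.Injective F := by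
      intro a b hab
      induction a using QuotientGroup.induction_on with
      | H a =>
        induction b using QuotientGroup.induction_on with
        | H b =>
          rw [hF, hF, QuotientGroup.eq] at hab
          exact QuotientGroup.eq.2 ((hrel a b).2 hab)
    have hFs : Function.Surjective F := by
      intro x
      induction x using QuotientGroup.induction_on with
      | H x =>
        obtain ⟨h, _, γ, hγ, hx⟩ := htr x
        refine ⟨(h : H ⧸ Gm.subgroupOf H), ?_⟩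
        rw [hF, QuotientGroup.eq, hx, inv_mul_cancel_left]
        exact hγ
    have hFo : IsOpenMap F := by
      intro W hW
      have h1 : F '' W = (QuotientGroup.mk : G → G ⧸ Γ) '' (φ ''
          ((QuotientGroup.mk : H → H ⧸ Gm.subgroupOf H) ⁻¹' W)) := by
        ext x
        constructor
        · rintro ⟨w, hw, rfl⟩
          induction w using QuotientGroup.induction_on with
          | H w => exact ⟨φ w, ⟨w, hw, rfl⟩, rfl⟩
        · rintro ⟨_, ⟨w, hw, rfl⟩, rfl⟩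
          exact ⟨_, hw, rfl⟩
      rw [h1]
      exact QuotientGroup.isOpenMap_coe _ (hφo _ (hW.preimage QuotientGroup.continuous_mk))
    let Fe : H ⧸ Gm.subgroupOf H ≃ₜ G ⧸ Γ :=
      (Equiv.ofBijective F ⟨hFi, hFs⟩).toHomeomorphOfContinuousOpen hFc hFo
    exact Fe.symm.compactSpace
  have hMH : uexp M ∈ H := by
    rw [hmem]
    refine ⟨0, e.zero_mem, 1, ?_⟩
    rw [uexp_zero, one_mul, Int.cast_one, one_smul]
  -- density
  have hden : ∀ r : ℕ, 0 < r → ∀ h ∈ H, ∀ O : Set (Mat N), IsOpen O →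
      ((h : (Mat N)ˣ) : Mat N) ∈ O →
      ∃ n : ℤ, ∃ γ ∈ Gm, (((uexp M) ^ ((r : ℤ) * n) * γ : (Mat N)ˣ) : Mat N) ∈ O := by
    intro r hr h hh O hO hhO
    have h1 : IsOpen {h' : H | ((h' : (Mat N)ˣ) : Mat N) ∈ O} :=
      hO.preimage (Units.continuous_val.comp continuous_subtype_val)
    have h2 : IsOpen ((QuotientGroup.mk : G → G ⧸ Γ) '' (φ ''
        {h' : H | ((h' : (Mat N)ˣ) : Mat N) ∈ O})) :=
      QuotientGroup.isOpenMap_coe _ (hφo _ h1)
    obtain ⟨x, ⟨n, hn⟩, ⟨y, ⟨h', hh', hy⟩, hx⟩⟩ := (hdense r hr ((1 : G) : G ⧸ Γ)).exists_mem_open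
      h2 ⟨_, _, ⟨⟨h, hh⟩, hhO, rfl⟩, rfl⟩
    have h3 : (((g ^ r) ^ n : G) : G ⧸ Γ) = (φ h' : G ⧸ Γ) := by
      rw [hy, hx, ← hn]
      change _ = (g ^ r) ^ n • ((1 : G) : G ⧸ Γ)
      rw [MulAction.Quotient.smul_coe, smul_eq_mul, mul_one]
    rw [QuotientGroup.eq] at h3
    let μ : H := ⟨uexp M, hMH⟩
    have h4 : φ μ = g := hφM μ rfl
    have h5 : φ ((μ ^ ((r : ℤ) * n))⁻¹ * h') ∈ Γ := by
      rw [map_mul, map_inv, map_zpow, h4, zpow_mul, zpow_natCast]
      exact h3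
    refine ⟨n, (((μ ^ ((r : ℤ) * n))⁻¹ * h' : H) : (Mat N)ˣ), (hGm _).2 h5, ?_⟩
    have h6 : (uexp M) ^ ((r : ℤ) * n) * (((μ ^ ((r : ℤ) * n))⁻¹ * h' : H) : (Mat N)ˣ) = h' := by
      have h7 : (uexp M) ^ ((r : ℤ) * n) = ((μ ^ ((r : ℤ) * n) : H) : (Mat N)ˣ) := by
        rw [Subgroup.coe_zpow]
      rw [h7, ← Subgroup.coe_mul, mul_inv_cancel_left]
    rw [h6]
    exact hh' 
  exact ⟨N, e, M, H, Gm, φ, ⟨he, hMS, hbr, hbM, hMn, hmem, hle, hcompH, htrans, hden⟩, hφc, hφM,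
    hGm⟩

end Pool.Agent.Y761.NS.Red
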